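import Pool.Agent.Helper79.LG.CR
import Pool.Agent.Helper79.LG.DR
import Pool.Agent.Helper99.IG.MONO
import Pool.Agent.Helper93.IG.ACT

/-!
# Project LG (MP_d01c92_ag), packet DC, by helper39
-/

universe u v

open scoped BigOperators

open Pool.Agent.Helper64.IG

namespace Pool.Agent.Helper39.LG

open Pool.Agent.Helper79.LG

theorem inl_out {n p : ℕ} {b : Ix (n + 1) p} (h : b ≠ Sum.inl (Fin.last n)) :
    ∃ b' : Ix n p, inc (Nat.le_succ n) le_rfl b' = b := by
  rcases b with i | j
  · have hi : i ≠ Fin.last n := fun hi => h (by rw [hi])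
    refine ⟨Sum.inl (i.castLT (Fin.val_lt_last hi)), ?_⟩
    simp only [inc, Sum.map_inl]
    congr 1
  · exact ⟨Sum.inr j, rfl⟩

theorem inr_out {n p : ℕ} {b : Ix n (p + 1)} (h : b ≠ Sum.inr (Fin.last p)) :
    ∃ b' : Ix n p, inc le_rfl (Nat.le_succ p) b' = b := by
  rcases b with i | j
  · exact ⟨Sum.inl i, rfl⟩
  · have hi : j ≠ Fin.last p := fun hi => h (by rw [hi])
    refine ⟨Sum.inr (j.castLT (Fin.val_lt_last hi)), ?_⟩
    simp only [inc, Sum.map_inr]
    congr 1

theorem perm_form {K : Type u} [Field K] {n p : ℕ} {ω : Form K n p} (hω : IsDec ω)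
    (a : Fin p → Ix n p) (π : Equiv.Perm (Fin p)) :
    ω (a ∘ π) = ((Equiv.Perm.sign π : ℤ) : K) * ω a := by
  obtain ⟨c, φ, h⟩ := hω
  rw [h, h]
  have := Matrix.det_permute' π (Matrix.of (fun i j => φ i (a j)))
  have e : (fun i j => φ i ((a ∘ π) j) : Matrix (Fin p) (Fin p) K) =
      (Matrix.of (fun i j => φ i (a j))).submatrix id π := rfl
  rw [e, this]
  show _ = _ * (c * (Matrix.of (fun i j => φ i (a j))).det)
  ring

theorem dc : G_DC.{u, v} := by
  classical
  intro k K _ _ _ C hC x hx n p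
  constructor
  · intro d hd
    refine mn k K _ _ d ?_ hd
    rintro _ ⟨a, ha, rfl⟩
    have h : ∀ j, ∃ b' : Ix n (p + 1), inc (Nat.le_succ n) le_rfl b' = a j := fun j =>
      inl_out (fun hj => ha ⟨j, hj⟩)
    choose a' ha' using h
    apply IntermediateField.subset_adjoin
    refine ⟨a', ?_⟩
    rw [← x.xi_eq n (p + 1)]
    show x.x (n + 1) (p + 1) (inc (Nat.le_succ n) le_rfl ∘ a') = _
    congr 1
    funext j
    exact ha' j
  · obtain ⟨y, hy, hyx⟩ := Pool.Agent.Helper64.IG.PkMONO.mono Pool.Agent.Helper64.IG.PkACT.act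
      K C hC x hx (n + 1) (p + 1)
      (Equiv.swap (Sum.inl (Fin.last n)) (Sum.inr (Fin.last p))) (fun _ => 1)
      (fun _ => Or.inl rfl)
    refine ⟨y, hy, ?_⟩
    intro d hd
    refine mn k K _ _ d ?_ hd
    rintro _ ⟨a, ⟨j, hj⟩, rfl⟩
    by_cases hrep : ∃ i, a (j.succAbove i) = Sum.inl (Fin.last n)
    · obtain ⟨i, hi⟩ := hrep
      rw [rep_zero (x.dec _ _) (Fin.succAbove_ne j i) (hi.trans hj.symm)]
      exact zero_mem _
    · have hrep' : ∀ i, a (j.succAbove i) ≠ Sum.inl (Fin.last n) := fun i hi => hrep ⟨i, hi⟩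
      have h : ∀ i, ∃ b' : Ix (n + 1) p, inc le_rfl (Nat.le_succ p) b' =
          Equiv.swap (Sum.inl (Fin.last n)) (Sum.inr (Fin.last p)) (a (j.succAbove i)) := by
        intro i
        apply inr_out
        intro he
        apply hrep' i
        exact (Equiv.swap_apply_eq_iff.mp he).trans (Equiv.swap_apply_right _ _)
      choose a' ha' using h
      have hval : y.x (n + 1) p a' = x.x (n + 1) (p + 1)
          (Fin.cons (Sum.inl (Fin.last n)) (fun i => a (j.succAbove i))) := by
        rw [← y.theta_eq (n + 1) p]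
        show y.x (n + 1) (p + 1) (Fin.cons (Sum.inr (Fin.last p))
          (inc le_rfl (Nat.le_succ p) ∘ a')) = _
        rw [hyx]
        simp only [Finset.prod_const_one, one_mul]
        congr 1
        funext i
        refine Fin.cases ?_ (fun i => ?_) i
        · simp
        · simp only [Function.comp_apply, Fin.cons_succ, ha']
          rw [Equiv.swap_apply_self]
      have hperm := perm_form (x.dec (n + 1) (p + 1)) a j.cycleRange.symm
      have hcomp : a ∘ j.cycleRange.symm = (Fin.cons (Sum.inl (Fin.last n))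
          (fun i => a (j.succAbove i)) : Fin (p + 1) → Ix (n + 1) (p + 1)) := by
        funext i
        refine Fin.cases ?_ (fun i => ?_) i
        · simp [Fin.cycleRange_symm_zero, hj]
        · simp [Fin.cycleRange_symm_succ]
      rw [hcomp, ← hval] at hperm
      have hmem : y.x (n + 1) p a' ∈ IntermediateField.adjoin k (Set.range (y.x (n + 1) p)) :=
        IntermediateField.subset_adjoin k _ ⟨a', rfl⟩
      have hsgn : x.x (n + 1) (p + 1) a =
          ((Equiv.Perm.sign j.cycleRange.symm : ℤ) : K) * y.x (n + 1) p a' := by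
        rw [hperm, ← mul_assoc, ← Int.cast_mul]
        rcases Int.units_eq_one_or (Equiv.Perm.sign j.cycleRange.symm) with h | h <;> simp [h]
      rw [hsgn]
      exact mul_mem (intCast_mem _ _) hmem

end Pool.Agent.Helper39.LG
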